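import Pool.Agent.H96.CP.Stm

/-!
Project CP: Fubini for blocks, products of integrals over blocks, the prediction lemma.
-/

set_option autoImplicit false

open Real Set MeasureTheory Metric Filter Topology
open scoped ENNReal

namespace Pool.Agent.H31.CP

open Pool.Agent.H96.CP

/-! ## Products -/

theorem measurable_comb {α β γ ι : Type} [Fintype α] [Fintype β] [Fintype γ] [Fintype ι]
    (e : (α × β) ⊕ γ ≃ ι) :
    Measurable fun p : (γ → ℂ) × (α → β → ℂ) => comb e p.1 p.2 := by
  refine measurable_pi_iff.2 fun i => ?_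
  unfold comb
  rcases h : e.symm i with p | c
  · simp only [Sum.elim_inl]
    exact (measurable_pi_apply p.2).comp ((measurable_pi_apply p.1).comp measurable_snd)
  · simp only [Sum.elim_inr]
    exact (measurable_pi_apply c).comp measurable_fst

/-- the measurable equivalence given by `comb` -/
noncomputable def combEquiv {α β γ ι : Type} [Fintype α] [Fintype β] [Fintype γ] [Fintype ι]
    (e : (α × β) ⊕ γ ≃ ι) : (γ → ℂ) × (α → β → ℂ) ≃ᵐ (ι → ℂ) where
  toFun p := comb e p.1 p.2
  invFun x := (fun c => x (e (Sum.inr c)), fun a b => x (e (Sum.inl (a, b))))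
  left_inv := by
    rintro ⟨g, w⟩
    simp [comb]
  right_inv := by
    intro x
    funext i
    obtain ⟨j, rfl⟩ := e.surjective i
    rcases j with p | c <;> simp [comb]
  measurable_toFun := measurable_comb e
  measurable_invFun := by
    refine Measurable.prodMk ?_ ?_
    · exact measurable_pi_iff.2 fun c => measurable_pi_apply _
    · exact measurable_pi_iff.2 fun a => measurable_pi_iff.2 fun b => measurable_pi_apply _

theorem combEquiv_apply {α β γ ι : Type} [Fintype α] [Fintype β] [Fintype γ] [Fintype ι]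
    (e : (α × β) ⊕ γ ≃ ι) (p : (γ → ℂ) × (α → β → ℂ)) : combEquiv e p = comb e p.1 p.2 := rfl

theorem measurePreserving_comb {α β γ ι : Type} [Fintype α] [Fintype β] [Fintype γ] [Fintype ι]
    (e : (α × β) ⊕ γ ≃ ι) : MeasurePreserving (combEquiv e) volume volume := by
  refine ⟨(combEquiv e).measurable, ?_⟩
  symm
  rw [volume_pi]
  refine Measure.pi_eq fun s hs => ?_
  rw [Measure.map_apply (combEquiv e).measurable (MeasurableSet.univ_pi hs)]
  have h1 : (combEquiv e) ⁻¹' (Set.pi univ s) =
      (Set.pi univ fun c => s (e (Sum.inr c))) ×ˢ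
        (Set.pi univ fun a => Set.pi univ fun b => s (e (Sum.inl (a, b)))) := by
    ext ⟨g, w⟩
    simp only [mem_preimage, combEquiv_apply, Set.mem_pi, mem_prod]
    constructor
    · intro h
      refine ⟨fun c _ => ?_, fun a _ b _ => ?_⟩
      · have := h (e (Sum.inr c)) (mem_univ _)
        simpa [comb] using this
      · have := h (e (Sum.inl (a, b))) (mem_univ _)
        simpa [comb] using this
    · rintro ⟨h, h'⟩ i _
      obtain ⟨j, rfl⟩ := e.surjective i
      rcases j with p | c
      · simpa [comb] using h' p.1 (mem_univ _) p.2 (mem_univ _)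
      · simpa [comb] using h c (mem_univ _)
  rw [h1, Measure.volume_eq_prod, Measure.prod_prod, volume_pi_pi]
  rw [volume_pi (ι := α), Measure.pi_pi]
  simp_rw [volume_pi_pi]
  rw [← Fintype.prod_prod_type' (f := fun a b => volume (s (e (Sum.inl (a, b)))))]
  rw [← e.prod_comp, Fintype.prod_sum_type, mul_comm]

theorem comb_thm : S_comb := by
  intro α β γ ι _ _ _ _ e F hF
  have h1 := (measurePreserving_comb e).lintegral_comp hF
  rw [← h1]
  simp only [combEquiv_apply]
  rw [Measure.volume_eq_prod, lintegral_prod]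
  exact (hF.comp (measurable_comb e)).aemeasurable

theorem lintegral_fin_prod {E : Type*} [MeasurableSpace E] {μ : Measure E} [SigmaFinite μ] {n : ℕ}
    (f : Fin n → E → ℝ≥0∞) (hf : ∀ i, Measurable (f i)) :
    ∫⁻ x : Fin n → E, ∏ i, f i (x i) ∂(Measure.pi fun _ => μ) = ∏ i, ∫⁻ x, f i x ∂μ := by
  induction n with
  | zero => simp
  | succ n n_ih =>
    calc
      _ = ∫⁻ x : E × (Fin n → E), f 0 x.1 * ∏ i : Fin n, f (Fin.succ i) (x.2 i)
          ∂(μ.prod (Measure.pi fun _ => μ)) := by
        rw [← ((measurePreserving_piFinSuccAbove (fun _ : Fin (n + 1) => μ)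
          0).symm).lintegral_comp_emb (MeasurableEquiv.measurableEmbedding _)]
        simp_rw [MeasurableEquiv.piFinSuccAbove_symm_apply, Fin.insertNthEquiv,
          Fin.prod_univ_succ, Fin.insertNth_zero, Equiv.coe_fn_mk, Fin.cons_succ,
          Fin.cons_zero]
        rfl
      _ = (∫⁻ x, f 0 x ∂μ) * ∏ i : Fin n, ∫⁻ x, f (Fin.succ i) x ∂μ := by
        rw [← n_ih (fun i => f (Fin.succ i)) fun i => hf _]
        exact lintegral_prod_mul (f := f 0) (g := fun y : Fin n → E => ∏ i, f (Fin.succ i) (y i))
          (hf 0).aemeasurable (Finset.measurable_prod _ fun i _ =>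
            (hf _).comp (measurable_pi_apply i)).aemeasurable
      _ = ∏ i, ∫⁻ x, f i x ∂μ := by rw [Fin.prod_univ_succ]

theorem lintegral_fintype_prod {ι E : Type*} [Fintype ι] [MeasurableSpace E] {μ : Measure E}
    [SigmaFinite μ] (f : ι → E → ℝ≥0∞) (hf : ∀ i, Measurable (f i)) :
    ∫⁻ x : ι → E, ∏ i, f i (x i) ∂(Measure.pi fun _ => μ) = ∏ i, ∫⁻ x, f i x ∂μ := by
  let e := (Fintype.equivFin ι).symm
  rw [← (measurePreserving_piCongrLeft (fun _ : ι => μ) e).lintegral_comp_emb
    (MeasurableEquiv.measurableEmbedding _)]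
  simp_rw [← e.prod_comp, MeasurableEquiv.coe_piCongrLeft, Equiv.piCongrLeft_apply_apply]
  exact lintegral_fin_prod (fun i => f (e i)) fun i => hf _

theorem prod_thm : S_prod := by
  intro α β _ _ h hh
  exact lintegral_fintype_prod (μ := (volume : Measure (β → ℂ))) h hh

theorem pred_thm : S_pred := by
  intro ι _ p rk hp F hF
  classical
  have hpow : ∀ (n : ℕ) (x y : ι → ℂ) (i : ι), rk i < n → (p ^ n) x i = (p ^ n) y i := by
    intro n
    induction n with
    | zero => intro x y i hi; omega
    | succ n ih =>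
      intro x y i hi
      rw [pow_succ', Module.End.mul_apply, Module.End.mul_apply]
      exact hp i _ _ fun j hj => ih x y j (by omega)
  have hnil : IsNilpotent p := by
    refine ⟨Finset.univ.sup rk + 1, ?_⟩
    refine LinearMap.ext fun x => funext fun k => ?_
    rw [hpow _ x 0 k (Nat.lt_succ_of_le (Finset.le_sup (Finset.mem_univ k))), map_zero]
    rfl
  have hdet : LinearMap.det (1 - p) = 1 := by
    have h1 := hnil.charpoly_eq_X_pow_finrank
    have h2 := LinearMap.eval_charpoly p 1
    rw [h1, Polynomial.eval_pow, Polynomial.eval_X, one_pow, map_one] at h2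
    exact h2.symm
  have hne : LinearMap.det (1 - p) ≠ 0 := by rw [hdet]; exact one_ne_zero
  have hmeas : Measurable (fun x : ι → ℂ => x - p x) := by
    have h1 : Continuous (p : (ι → ℂ) → (ι → ℂ)) := LinearMap.continuous_of_finiteDimensional p
    exact (continuous_id.sub h1).measurable
  have hmp : MeasurePreserving (fun x : ι → ℂ => x - p x) volume volume := by
    refine ⟨hmeas, ?_⟩
    ext s hs
    rw [Measure.map_apply hmeas hs]
    have h1 := Measure.addHaar_preimage_linearMap (volume : Measure (ι → ℂ)) (f := 1 - p) hne s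
    rw [hdet] at h1
    have h2 : (fun x : ι → ℂ => x - p x) ⁻¹' s = (1 - p : (ι → ℂ) →ₗ[ℝ] (ι → ℂ)) ⁻¹' s := rfl
    rw [h2, h1]
    simp
  exact hmp.lintegral_comp hF

end Pool.Agent.H31.CP
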