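import Pool.Agent.H31.CP.Base

/-!
Project CP: the partition function of two disjoint regions.
-/

set_option autoImplicit false

open Real Set MeasureTheory Metric Filter Topology
open scoped ENNReal Nat

namespace Pool.Agent.H31.CP

open Pool.Agent.H96.CP Pool.Agent.H96.HD

/-! ## Defects -/

theorem phi_nonneg {α : ℝ} (h : 0 ≤ α) : 0 ≤ phi α := by
  unfold phi
  have h1 : sin α * cos α = sin (2 * α) / 2 := by rw [sin_two_mul]; ring
  have h2 : sin (2 * α) ≤ 2 * α := sin_le (by linarith)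
  rw [h1]
  linarith

theorem al_eq_zero {z : ℂ} (h : 2 ≤ ‖z‖) : al z = 0 := by
  unfold al
  exact arccos_of_one_le (by linarith)

section

variable {ι : Type*} [Fintype ι] [DecidableEq ι] {x : ι → ℂ}

theorem sum_al_le' (hx : Sep x) (i : ι) : ∑ j ∈ Finset.univ.erase i, al (x j - x i) ≤ π := by
  have h1 : ∑ j ∈ Finset.univ.erase i, al (x j - x i) =
      ∑ j ∈ (Finset.univ.erase i).filter (fun j => ‖x j - x i‖ ≤ 2), al (x j - x i) := by
    rw [Finset.sum_filter]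
    refine Finset.sum_congr rfl fun j _ => ?_
    split_ifs with h
    · rfl
    · exact al_eq_zero (by linarith)
  rw [h1]
  refine arcs_total _ (fun j => x j - x i) (fun j hj => ?_) (fun j hj => ?_) (fun j hj k hk hjk => ?_)
  · exact hx j i (Finset.ne_of_mem_erase (Finset.mem_filter.mp hj).1)
  · exact (Finset.mem_filter.mp hj).2
  · rw [sub_sub_sub_cancel_right]
    exact hx j k hjk

theorem dfc_nonneg (hx : Sep x) (i : ι) : 0 ≤ dfc x i :=
  (stability (Finset.univ.erase i) (fun j => al (x j - x i)) (fun _ _ => al_nonneg _)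
    (fun j hj => al_le (hx j i (Finset.ne_of_mem_erase hj))) (sum_al_le' hx i)).1

theorem dfc_le (i : ι) : dfc x i ≤ 6 * phi (π / 6) := by
  unfold dfc
  have h1 : 0 ≤ ∑ j ∈ Finset.univ.erase i, phi (al (x j - x i)) :=
    Finset.sum_nonneg fun j _ => phi_nonneg (al_nonneg _)
  linarith

end

theorem W_nonneg {Λ : Set ℂ} {ι : Type*} [Fintype ι] {x : ι → ℂ} (hx : Sep x) : 0 ≤ W Λ x := by
  classical
  unfold W
  refine Finset.sum_nonneg fun i _ => ?_
  split_ifs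
  · exact dfc_nonneg hx i
  · exact le_rfl

theorem W_le {Λ : Set ℂ} {ι : Type*} [Fintype ι] {x : ι → ℂ} :
    W Λ x ≤ Fintype.card ι * (6 * phi (π / 6)) := by
  classical
  unfold W
  rw [← nsmul_eq_mul, ← Finset.card_univ, ← Finset.sum_const]
  refine Finset.sum_le_sum fun i _ => ?_
  split_ifs
  · exact dfc_le i
  · have := phi_nonneg (α := π / 6) (by positivity)
    positivity

/-- values on `ι ≃ κ₁ ⊕ κ₂` -/
def jn {κ₁ κ₂ ι : Type*} (e : κ₁ ⊕ κ₂ ≃ ι) (g : κ₁ → ℂ) (w : κ₂ → ℂ) : ι → ℂ :=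
  fun i => Sum.elim g w (e.symm i)

/-- **Superadditivity of the defects.** -/
theorem W_split {κ₁ κ₂ ι : Type*} [Fintype κ₁] [Fintype κ₂] [Fintype ι] (e : κ₁ ⊕ κ₂ ≃ ι)
    {Λ₁ Λ₂ : Set ℂ} (hd : Disjoint Λ₁ Λ₂) {x : ι → ℂ} (hx : Sep x)
    (h1 : ∀ a, x (e (Sum.inl a)) ∈ Λ₁) (h2 : ∀ b, x (e (Sum.inr b)) ∈ Λ₂) :
    W Λ₁ (fun a => x (e (Sum.inl a))) + W Λ₂ (fun b => x (e (Sum.inr b))) ≤ W (Λ₁ ∪ Λ₂) x := by
  classical
  unfold W
  rw [← e.sum_comp, Fintype.sum_sum_type]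
  -- the defect of a point only depends on the near points
  have key1 : ∀ a, closedBall (x (e (Sum.inl a))) 2 ⊆ Λ₁ →
      dfc (fun a => x (e (Sum.inl a))) a = dfc x (e (Sum.inl a)) := by
    intro a ha
    unfold dfc
    congr 1
    rw [Finset.sum_erase_eq_sub (Finset.mem_univ _), Finset.sum_erase_eq_sub (Finset.mem_univ _),
      ← e.sum_comp, Fintype.sum_sum_type]
    have h3 : ∑ b, phi (al (x (e (Sum.inr b)) - x (e (Sum.inl a)))) = 0 := by
      refine Finset.sum_eq_zero fun b _ => ?_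
      have h4 : 2 ≤ ‖x (e (Sum.inr b)) - x (e (Sum.inl a))‖ := by
        by_contra hcon
        push Not at hcon
        have h5 : x (e (Sum.inr b)) ∈ Λ₁ := ha (by
          rw [mem_closedBall, dist_eq_norm]
          exact hcon.le)
        exact Set.disjoint_left.1 hd h5 (h2 b)
      rw [al_eq_zero h4, phi_zero]
    rw [h3, add_zero]
  have key2 : ∀ b, closedBall (x (e (Sum.inr b))) 2 ⊆ Λ₂ →
      dfc (fun b => x (e (Sum.inr b))) b = dfc x (e (Sum.inr b)) := by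
    intro b hb
    unfold dfc
    congr 1
    rw [Finset.sum_erase_eq_sub (Finset.mem_univ _), Finset.sum_erase_eq_sub (Finset.mem_univ _),
      ← e.sum_comp, Fintype.sum_sum_type]
    have h3 : ∑ a, phi (al (x (e (Sum.inl a)) - x (e (Sum.inr b)))) = 0 := by
      refine Finset.sum_eq_zero fun a _ => ?_
      have h4 : 2 ≤ ‖x (e (Sum.inl a)) - x (e (Sum.inr b))‖ := by
        by_contra hcon
        push Not at hcon
        have h5 : x (e (Sum.inl a)) ∈ Λ₂ := hb (by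
          rw [mem_closedBall, dist_eq_norm]
          exact hcon.le)
        exact Set.disjoint_left.1 hd (h1 a) h5
      rw [al_eq_zero h4, phi_zero]
    rw [h3, zero_add]
  refine add_le_add (Finset.sum_le_sum fun a _ => ?_) (Finset.sum_le_sum fun b _ => ?_)
  · by_cases h : closedBall (x (e (Sum.inl a))) 2 ⊆ Λ₁
    · rw [if_pos h, if_pos (h.trans subset_union_left), key1 a h]
    · rw [if_neg h]
      split_ifs
      · exact dfc_nonneg hx _
      · exact le_rfl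
  · by_cases h : closedBall (x (e (Sum.inr b))) 2 ⊆ Λ₂
    · rw [if_pos h, if_pos (h.trans subset_union_right), key2 b h]
    · rw [if_neg h]
      split_ifs
      · exact dfc_nonneg hx _
      · exact le_rfl

/-! ## Integrals -/

/-- the measurable equivalence given by `jn` -/
noncomputable def jnEquiv {κ₁ κ₂ ι : Type*} [Fintype κ₁] [Fintype κ₂] [Fintype ι]
    (e : κ₁ ⊕ κ₂ ≃ ι) : (κ₁ → ℂ) × (κ₂ → ℂ) ≃ᵐ (ι → ℂ) where
  toFun p := jn e p.1 p.2
  invFun x := (fun c => x (e (Sum.inl c)), fun a => x (e (Sum.inr a)))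
  left_inv := by
    rintro ⟨g, w⟩
    simp [jn]
  right_inv := by
    intro x
    funext i
    obtain ⟨j, rfl⟩ := e.surjective i
    rcases j with p | c <;> simp [jn]
  measurable_toFun := by
    refine measurable_pi_iff.2 fun i => ?_
    rcases h : e.symm i with p | c
    · simp only [Equiv.coe_fn_mk, jn, h, Sum.elim_inl]
      exact (measurable_pi_apply p).comp measurable_fst
    · simp only [Equiv.coe_fn_mk, jn, h, Sum.elim_inr]
      exact (measurable_pi_apply c).comp measurable_snd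
  measurable_invFun := by
    refine Measurable.prodMk ?_ ?_
    · exact measurable_pi_iff.2 fun c => measurable_pi_apply _
    · exact measurable_pi_iff.2 fun a => measurable_pi_apply _

theorem jnEquiv_apply {κ₁ κ₂ ι : Type*} [Fintype κ₁] [Fintype κ₂] [Fintype ι]
    (e : κ₁ ⊕ κ₂ ≃ ι) (p : (κ₁ → ℂ) × (κ₂ → ℂ)) : jnEquiv e p = jn e p.1 p.2 := rfl

theorem jn_inl {κ₁ κ₂ ι : Type*} (e : κ₁ ⊕ κ₂ ≃ ι) (g : κ₁ → ℂ) (w : κ₂ → ℂ) (a : κ₁) :
    jn e g w (e (Sum.inl a)) = g a := by simp [jn]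

theorem jn_inr {κ₁ κ₂ ι : Type*} (e : κ₁ ⊕ κ₂ ≃ ι) (g : κ₁ → ℂ) (w : κ₂ → ℂ) (b : κ₂) :
    jn e g w (e (Sum.inr b)) = w b := by simp [jn]

theorem measurePreserving_jn {κ₁ κ₂ ι : Type*} [Fintype κ₁] [Fintype κ₂] [Fintype ι]
    (e : κ₁ ⊕ κ₂ ≃ ι) : MeasurePreserving (jnEquiv e) volume volume := by
  refine ⟨(jnEquiv e).measurable, ?_⟩
  symm
  rw [volume_pi]
  refine Measure.pi_eq fun s hs => ?_
  rw [Measure.map_apply (jnEquiv e).measurable (MeasurableSet.univ_pi hs)]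
  have h1 : (jnEquiv e) ⁻¹' (Set.pi univ s) =
      (Set.pi univ fun c => s (e (Sum.inl c))) ×ˢ (Set.pi univ fun b => s (e (Sum.inr b))) := by
    ext ⟨g, w⟩
    simp only [mem_preimage, jnEquiv_apply, Set.mem_pi, mem_prod]
    constructor
    · intro h
      refine ⟨fun c _ => ?_, fun b _ => ?_⟩
      · have := h (e (Sum.inl c)) (mem_univ _)
        rwa [jn_inl] at this
      · have := h (e (Sum.inr b)) (mem_univ _)
        rwa [jn_inr] at this
    · rintro ⟨h, h'⟩ i _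
      obtain ⟨j, rfl⟩ := e.surjective i
      rcases j with c | b
      · rw [jn_inl]; exact h c (mem_univ _)
      · rw [jn_inr]; exact h' b (mem_univ _)
  rw [h1, Measure.volume_eq_prod, Measure.prod_prod, volume_pi_pi, volume_pi_pi,
    ← e.prod_comp, Fintype.prod_sum_type]

/-- **Integrals of products of functions which need not be measurable.** -/
theorem lintegral_prod_le {X Y : Type*} [MeasurableSpace X] [MeasurableSpace Y] {μ : Measure X}
    {ν : Measure Y} [SFinite μ] [SFinite ν] {F₁ : X → ℝ≥0∞} {F₂ : Y → ℝ≥0∞} {B : Set X}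
    (hB : MeasurableSet B) {ε : ℝ≥0∞} (hε : ε ≠ 0) (h1 : ∀ x ∈ B, ε ≤ F₁ x)
    (h2 : ∀ x, x ∉ B → F₁ x = 0) (h3 : ∀ x, F₁ x ≠ ∞) :
    ∫⁻ z, F₁ z.1 * F₂ z.2 ∂(μ.prod ν) ≤ (∫⁻ x, F₁ x ∂μ) * ∫⁻ y, F₂ y ∂ν := by
  obtain ⟨g, hg, hle, heq⟩ := exists_measurable_le_lintegral_eq (μ := μ.prod ν)
    (fun z => F₁ z.1 * F₂ z.2)
  rw [heq, lintegral_prod g hg.aemeasurable]
  set c := ∫⁻ y, F₂ y ∂ν with hc
  have h4 : ∫⁻ x, ∫⁻ y, g (x, y) ∂ν ∂μ ≤ ∫⁻ x, F₁ x * c ∂μ := by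
    refine lintegral_mono fun x => ?_
    rw [hc, ← lintegral_const_mul' _ _ (h3 x)]
    exact lintegral_mono fun y => hle (x, y)
  refine h4.trans ?_
  by_cases hcT : c = ∞
  · by_cases hB0 : μ B = 0
    · have h5 : ∫⁻ x, F₁ x * c ∂μ = 0 := by
        have h6 : (fun x => F₁ x * c) =ᵐ[μ] 0 := by
          rw [Filter.EventuallyEq, ae_iff]
          refine measure_mono_null (fun x hx => ?_) hB0
          by_contra hcon
          apply hx
          show F₁ x * c = 0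
          rw [h2 x hcon, zero_mul]
        rw [lintegral_congr_ae h6]
        simp
      rw [h5]
      exact zero_le
    · have h5 : ∫⁻ x, F₁ x ∂μ ≠ 0 := by
        intro h0
        have h6 : ε * μ B ≤ ∫⁻ x, F₁ x ∂μ := by
          rw [← setLIntegral_const, ← lintegral_indicator hB]
          refine lintegral_mono fun x => ?_
          by_cases hx : x ∈ B
          · rw [indicator_of_mem hx]
            exact h1 x hx
          · rw [indicator_of_notMem hx]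
            exact zero_le
        rw [h0] at h6
        exact (mul_ne_zero hε hB0) (le_antisymm h6 zero_le)
      rw [hcT, ENNReal.mul_top h5]
      exact le_top
  · rw [lintegral_mul_const' _ _ hcT]

/-- separated configurations in a region -/
def BB (ι : Type*) (Λ : Set ℂ) : Set (ι → ℂ) := {x | (∀ i, x i ∈ Λ) ∧ Sep x}

theorem measurableSet_BB {ι : Type*} [Fintype ι] {Λ : Set ℂ} (hΛ : MeasurableSet Λ) :
    MeasurableSet (BB ι Λ) := by
  have h1 : BB ι Λ = (⋂ i, (fun x : ι → ℂ => x i) ⁻¹' Λ) ∩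
      ⋂ i, ⋂ j, ⋂ (_ : i ≠ j), {x : ι → ℂ | √3 ≤ ‖x i - x j‖} := by
    ext x
    simp only [BB, Pool.Agent.H96.CP.Sep, mem_ofPred_eq, mem_inter_iff, mem_iInter, mem_preimage]
  rw [h1]
  refine MeasurableSet.inter (MeasurableSet.iInter fun i => measurable_pi_apply i hΛ) ?_
  refine MeasurableSet.iInter fun i => MeasurableSet.iInter fun j => MeasurableSet.iInter fun _ => ?_
  have h2 : Continuous fun x : ι → ℂ => ‖x i - x j‖ := by fun_prop
  exact (isClosed_le continuous_const h2).measurableSet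

/-- the weight of a configuration -/
noncomputable def FF (s : ℝ) (ι : Type*) [Fintype ι] (Λ : Set ℂ) : (ι → ℂ) → ℝ≥0∞ :=
  (BB ι Λ).indicator fun x => ENNReal.ofReal (Real.exp (-(s * W Λ x)))

theorem ZR_eq {s : ℝ} {Λ : Set ℂ} (hΛ : MeasurableSet Λ) (k : ℕ) :
    ZR s Λ k = ((k ! : ℕ) : ℝ≥0∞)⁻¹ * ∫⁻ x, FF s (Fin k) Λ x := by
  unfold ZR FF
  rw [lintegral_indicator (measurableSet_BB hΛ)]
  rfl

theorem integral_split {κ₁ κ₂ ι : Type*} [Fintype κ₁] [Fintype κ₂] [Fintype ι] (e : κ₁ ⊕ κ₂ ≃ ι)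
    {s : ℝ} (hs : 0 ≤ s) {Λ₁ Λ₂ : Set ℂ} (h1 : MeasurableSet Λ₁) (hd : Disjoint Λ₁ Λ₂)
    {S : Set (ι → ℂ)} (hS : MeasurableSet S) (hS1 : ∀ x ∈ S, ∀ a, x (e (Sum.inl a)) ∈ Λ₁)
    (hS2 : ∀ x ∈ S, ∀ a, x (e (Sum.inr a)) ∈ Λ₂) (hS3 : ∀ x ∈ S, Sep x) :
    ∫⁻ x in S, ENNReal.ofReal (Real.exp (-(s * W (Λ₁ ∪ Λ₂) x))) ≤
      (∫⁻ x, FF s κ₁ Λ₁ x) * ∫⁻ x, FF s κ₂ Λ₂ x := by
  rw [← lintegral_indicator hS, ← (measurePreserving_jn e).lintegral_comp_emb
    (jnEquiv e).measurableEmbedding]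
  refine le_trans (lintegral_mono (g := fun z : (κ₁ → ℂ) × (κ₂ → ℂ) =>
    FF s κ₁ Λ₁ z.1 * FF s κ₂ Λ₂ z.2) fun z => ?_) ?_
  · by_cases hz : jnEquiv e z ∈ S
    · have hsep : Sep (jn e z.1 z.2) := hS3 _ hz
      have hz1 : z.1 ∈ BB κ₁ Λ₁ := by
        refine ⟨fun a => ?_, fun a b hab => ?_⟩
        · have := hS1 _ hz a
          rwa [jnEquiv_apply, jn_inl] at this
        · have := hsep (e (Sum.inl a)) (e (Sum.inl b)) (by simpa using hab)
          rwa [jn_inl, jn_inl] at this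
      have hz2 : z.2 ∈ BB κ₂ Λ₂ := by
        refine ⟨fun a => ?_, fun a b hab => ?_⟩
        · have := hS2 _ hz a
          rwa [jnEquiv_apply, jn_inr] at this
        · have := hsep (e (Sum.inr a)) (e (Sum.inr b)) (by simpa using hab)
          rwa [jn_inr, jn_inr] at this
      show S.indicator _ (jnEquiv e z) ≤ FF s κ₁ Λ₁ z.1 * FF s κ₂ Λ₂ z.2
      unfold FF
      rw [indicator_of_mem hz, indicator_of_mem hz1, indicator_of_mem hz2,
        ← ENNReal.ofReal_mul (Real.exp_pos _).le, ← Real.exp_add]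
      refine ENNReal.ofReal_le_ofReal (Real.exp_le_exp.2 ?_)
      have h := W_split e hd (x := jn e z.1 z.2) hsep
        (fun a => by rw [jn_inl]; exact hz1.1 a) (fun b => by rw [jn_inr]; exact hz2.1 b)
      simp only [jn_inl, jn_inr] at h
      have h' := mul_le_mul_of_nonneg_left h hs
      rw [jnEquiv_apply]
      have e1 : (fun a => z.1 a) = z.1 := rfl
      have e2 : (fun a => z.2 a) = z.2 := rfl
      rw [mul_add] at h'
      linarith
    · show S.indicator _ (jnEquiv e z) ≤ _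
      rw [indicator_of_notMem hz]
      exact zero_le
  · rw [Measure.volume_eq_prod]
    refine lintegral_prod_le (measurableSet_BB h1)
      (ε := ENNReal.ofReal (Real.exp (-(s * (Fintype.card κ₁ * (6 * phi (π / 6))))))) ?_ ?_ ?_ ?_
    · rw [Ne, ENNReal.ofReal_eq_zero, not_le]
      exact Real.exp_pos _
    · intro x hx
      unfold FF
      rw [indicator_of_mem hx]
      refine ENNReal.ofReal_le_ofReal (Real.exp_le_exp.2 ?_)
      have := mul_le_mul_of_nonneg_left (W_le (Λ := Λ₁) (x := x)) hs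
      linarith
    · intro x hx
      unfold FF
      rw [indicator_of_notMem hx]
    · intro x
      unfold FF
      by_cases hx : x ∈ BB κ₁ Λ₁
      · rw [indicator_of_mem hx]
        exact ENNReal.ofReal_ne_top
      · rw [indicator_of_notMem hx]
        exact ENNReal.zero_ne_top

/-- the configurations of which exactly the points of `T` are in `Λ₁` -/
def TT {N : ℕ} (Λ₁ Λ₂ : Set ℂ) (T : Finset (Fin N)) : Set (Fin N → ℂ) :=
  {x | (∀ i, x i ∈ if i ∈ T then Λ₁ else Λ₂) ∧ Sep x}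

theorem measurableSet_TT {N : ℕ} {Λ₁ Λ₂ : Set ℂ} (h1 : MeasurableSet Λ₁) (h2 : MeasurableSet Λ₂)
    (T : Finset (Fin N)) : MeasurableSet (TT Λ₁ Λ₂ T) := by
  have h : TT Λ₁ Λ₂ T = (⋂ i, (fun x : Fin N → ℂ => x i) ⁻¹' (if i ∈ T then Λ₁ else Λ₂)) ∩
      ⋂ i, ⋂ j, ⋂ (_ : i ≠ j), {x : Fin N → ℂ | √3 ≤ ‖x i - x j‖} := by
    ext x
    simp only [TT, Pool.Agent.H96.CP.Sep, mem_ofPred_eq, mem_inter_iff, mem_iInter, mem_preimage]
  rw [h]
  refine MeasurableSet.inter (MeasurableSet.iInter fun i => ?_) ?_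
  · refine measurable_pi_apply i ?_
    split_ifs
    · exact h1
    · exact h2
  refine MeasurableSet.iInter fun i => MeasurableSet.iInter fun j => MeasurableSet.iInter fun _ => ?_
  have h2 : Continuous fun x : Fin N → ℂ => ‖x i - x j‖ := by fun_prop
  exact (isClosed_le continuous_const h2).measurableSet

theorem disjoint_TT {N : ℕ} {Λ₁ Λ₂ : Set ℂ} (hd : Disjoint Λ₁ Λ₂) {S T : Finset (Fin N)}
    (h : S ≠ T) : Disjoint (TT Λ₁ Λ₂ S) (TT Λ₁ Λ₂ T) := by
  rw [Set.disjoint_left]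
  rintro x ⟨hx, -⟩ ⟨hx', -⟩
  apply h
  ext i
  have h1 := hx i
  have h2 := hx' i
  by_cases hi : i ∈ S <;> by_cases hj : i ∈ T <;> simp only [hi, hj, if_true, if_false] at *
  · exact absurd h2 (Set.disjoint_left.1 hd h1)
  · exact absurd h1 (Set.disjoint_left.1 hd h2)

theorem union_TT {N : ℕ} (Λ₁ Λ₂ : Set ℂ) :
    BB (Fin N) (Λ₁ ∪ Λ₂) ⊆ ⋃ T ∈ (Finset.univ : Finset (Finset (Fin N))), TT Λ₁ Λ₂ T := by
  classical
  rintro x ⟨hx, hx'⟩
  simp only [Finset.mem_univ, iUnion_true, mem_iUnion]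
  refine ⟨Finset.univ.filter fun i => x i ∈ Λ₁, fun i => ?_, hx'⟩
  by_cases hi : x i ∈ Λ₁
  · rw [if_pos (by simpa using hi)]
    exact hi
  · rw [if_neg (by simpa using hi)]
    exact (hx i).resolve_left hi

theorem conv_thm : S_conv := by
  intro s Λ₁ Λ₂ hs h1 h2 hd N
  classical
  let I₁ : ℕ → ℝ≥0∞ := fun k => ∫⁻ x, FF s (Fin k) Λ₁ x
  let I₂ : ℕ → ℝ≥0∞ := fun k => ∫⁻ x, FF s (Fin k) Λ₂ x
  have hT : ∀ T : Finset (Fin N), ∫⁻ x in TT Λ₁ Λ₂ T,
      ENNReal.ofReal (Real.exp (-(s * W (Λ₁ ∪ Λ₂) x))) ≤ I₁ T.card * I₂ (N - T.card) := by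
    intro T
    have hc : Tᶜ.card = N - T.card := by rw [Finset.card_compl, Fintype.card_fin]
    let e := finSumEquivOfFinset (s := T) rfl hc
    refine integral_split e hs h1 hd (measurableSet_TT h1 h2 T) (fun x hx a => ?_)
      (fun x hx a => ?_) fun x hx => hx.2
    · have h3 := hx.1 (e (Sum.inl a))
      have h4 : e (Sum.inl a) ∈ T := by
        have h5 : e (Sum.inl a) = T.orderEmbOfFin rfl a := finSumEquivOfFinset_inl rfl hc a
        rw [h5]
        exact Finset.orderEmbOfFin_mem _ _ _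
      rwa [if_pos h4] at h3
    · have h3 := hx.1 (e (Sum.inr a))
      have h4 : e (Sum.inr a) ∉ T := by
        have h5 : e (Sum.inr a) = Tᶜ.orderEmbOfFin hc a := finSumEquivOfFinset_inr rfl hc a
        rw [h5]
        exact Finset.mem_compl.1 (Finset.orderEmbOfFin_mem _ _ _)
      rwa [if_neg h4] at h3
  have hmain : ∫⁻ x in BB (Fin N) (Λ₁ ∪ Λ₂), ENNReal.ofReal (Real.exp (-(s * W (Λ₁ ∪ Λ₂) x))) ≤
      ∑ T : Finset (Fin N), I₁ T.card * I₂ (N - T.card) := by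
    refine (lintegral_mono_set (union_TT Λ₁ Λ₂)).trans ?_
    rw [lintegral_biUnion_finset]
    · exact Finset.sum_le_sum fun T _ => hT T
    · intro S _ T _ hST
      exact disjoint_TT hd hST
    · exact fun T _ => measurableSet_TT h1 h2 T
  have hsum : ∑ T : Finset (Fin N), I₁ T.card * I₂ (N - T.card) =
      ∑ k ∈ Finset.range (N + 1), N.choose k • (I₁ k * I₂ (N - k)) := by
    have h3 := Finset.sum_powerset_apply_card (fun k => I₁ k * I₂ (N - k))
      (x := (Finset.univ : Finset (Fin N)))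
    rw [Finset.powerset_univ, Finset.card_univ, Fintype.card_fin] at h3
    exact h3
  have hZ : ZR s (Λ₁ ∪ Λ₂) N = ((N ! : ℕ) : ℝ≥0∞)⁻¹ * ∫⁻ x in BB (Fin N) (Λ₁ ∪ Λ₂),
      ENNReal.ofReal (Real.exp (-(s * W (Λ₁ ∪ Λ₂) x))) := rfl
  rw [hZ, Finset.Nat.sum_antidiagonal_eq_sum_range_succ (fun a b => ZR s Λ₁ a * ZR s Λ₂ b)]
  refine (mul_le_mul_right hmain _).trans ?_
  rw [hsum, Finset.mul_sum]
  refine Finset.sum_le_sum fun k hk => ?_
  have hkN : k ≤ N := Nat.lt_succ_iff.1 (Finset.mem_range.1 hk)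
  rw [ZR_eq h1, ZR_eq h2, nsmul_eq_mul]
  have h3 : (N.choose k : ℝ≥0∞) * ((k ! : ℕ) : ℝ≥0∞) * (((N - k) ! : ℕ) : ℝ≥0∞) =
      ((N ! : ℕ) : ℝ≥0∞) := by
    exact_mod_cast Nat.choose_mul_factorial_mul_factorial hkN
  have hk0 : ((k ! : ℕ) : ℝ≥0∞) ≠ 0 := by exact_mod_cast (Nat.factorial_pos k).ne'
  have hN0 : ((N ! : ℕ) : ℝ≥0∞) ≠ 0 := by exact_mod_cast (Nat.factorial_pos N).ne'
  have hk1 : (((N - k) ! : ℕ) : ℝ≥0∞) ≠ 0 := by exact_mod_cast (Nat.factorial_pos (N - k)).ne'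
  have hkT : ((k ! : ℕ) : ℝ≥0∞) ≠ ∞ := ENNReal.natCast_ne_top _
  have hNT : ((N ! : ℕ) : ℝ≥0∞) ≠ ∞ := ENNReal.natCast_ne_top _
  have hk1T : (((N - k) ! : ℕ) : ℝ≥0∞) ≠ ∞ := ENNReal.natCast_ne_top _
  have h4 : ((N ! : ℕ) : ℝ≥0∞)⁻¹ * (N.choose k : ℝ≥0∞) =
      ((k ! : ℕ) : ℝ≥0∞)⁻¹ * (((N - k) ! : ℕ) : ℝ≥0∞)⁻¹ := by
    rw [← ENNReal.mul_inv (Or.inl hk0) (Or.inl hkT)]
    refine (ENNReal.eq_inv_of_mul_eq_one_left ?_)
    rw [mul_assoc, ← mul_assoc (N.choose k : ℝ≥0∞), h3]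
    exact ENNReal.inv_mul_cancel hN0 hNT
  calc ((N ! : ℕ) : ℝ≥0∞)⁻¹ * ((N.choose k : ℝ≥0∞) * (I₁ k * I₂ (N - k)))
      = ((N ! : ℕ) : ℝ≥0∞)⁻¹ * (N.choose k : ℝ≥0∞) * (I₁ k * I₂ (N - k)) := by rw [mul_assoc]
    _ = ((k ! : ℕ) : ℝ≥0∞)⁻¹ * (((N - k) ! : ℕ) : ℝ≥0∞)⁻¹ * (I₁ k * I₂ (N - k)) := by rw [h4]
    _ ≤ _ := by
      refine le_of_eq ?_
      ring

end Pool.Agent.H31.CP
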